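import Pool.Agent.Helper18.SU.Goals

set_option autoImplicit false

namespace Pool.Agent.Helper40.SU

open Pool.Agent.Helper18.SU SimpleGraph

theorem ROOT : ROOT_stmt := by
  classical
  intro W _ _ G hT r
  have huniq : ∀ {u v : W} (p q : G.Walk u v), p.IsPath → q.IsPath → p = q := by
    intro u v p q hp hq
    have := (hT.IsAcyclic.subsingleton_path u v).elim ⟨p, hp⟩ ⟨q, hq⟩
    exact congrArg Subtype.val this
  have hex : ∀ v : W, ∃ p : G.Walk v r, p.IsPath := by
    intro v
    obtain ⟨p, hp, _⟩ := hT.existsUnique_path v r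
    exact ⟨p, hp⟩
  choose p hp using hex
  have hnil : ∀ v, v ≠ r → ¬ (p v).Nil := fun v hv => Walk.not_nil_of_ne hv
  have hpr : p r = Walk.nil := huniq _ _ (hp r) Walk.IsPath.nil
  -- the tail
  have htail : ∀ v, v ≠ r → (p v).tail = p (p v).snd := fun v _ =>
    huniq _ _ (hp v).tail (hp _)
  have hdep : ∀ v, v ≠ r → (p (p v).snd).length + 1 = (p v).length := by
    intro v hv
    rw [← htail v hv]
    exact Walk.length_tail_add_one (hnil v hv)
  have hadj1 : ∀ v, v ≠ r → G.Adj v (p v).snd := fun v hv => Walk.adj_snd (hnil v hv)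
  have hadj2 : ∀ u v, G.Adj u v → (u ≠ r ∧ (p u).snd = v) ∨ (v ≠ r ∧ (p v).snd = u) := by
    intro u v h
    by_cases hv : v ∈ (p u).support
    · left
      have hur : u ≠ r := by
        rintro rfl
        rw [hpr] at hv
        simp at hv
        subst hv
        exact G.loopless.irrefl _ h
      refine ⟨hur, ?_⟩
      have h1 : (p u).takeUntil v hv = Walk.cons h Walk.nil :=
        huniq _ _ ((hp u).takeUntil hv) (by simp [h.ne])
      have h2 := (p u).take_spec hv
      rw [h1] at h2
      rw [← h2]
      simp
    · right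
      have hvr : v ≠ r := by
        rintro rfl
        exact hv (p u).end_mem_support
      refine ⟨hvr, ?_⟩
      have h1 : p v = Walk.cons h.symm (p u) :=
        huniq _ _ (hp v) ((hp u).cons hv)
      rw [h1]
      simp
  refine ⟨fun v => (p v).snd, fun v => (p v).length, ⟨?_, ?_, ?_⟩, ?_, ?_, ?_⟩
  · simp [hpr]
  · show (p r).snd = r
    rw [hpr]; rfl
  · exact hdep
  · intro u v
    constructor
    · exact hadj2 u v
    · rintro (⟨h, rfl⟩ | ⟨h, rfl⟩)
      · exact hadj1 u h
      · exact (hadj1 v h).symm
  · intro K hr hK v hv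
    show (p v).snd ∈ K
    by_cases hvr : v = r
    · subst hvr
      rw [hpr]; exact hr
    · obtain ⟨q⟩ := hK ⟨v, hv⟩ ⟨r, hr⟩
      let q' := (q.toPath : (G.induce (K : Set W)).Walk ⟨v, hv⟩ ⟨r, hr⟩)
      have hq' : q'.IsPath := q.toPath.2
      have key : ∀ (a b : (K : Set W)) (q : (G.induce (K : Set W)).Walk a b), q.IsPath →
          ∀ p' : G.Walk (a : W) (b : W), p'.IsPath → p'.snd ∈ K := by
        intro a b q hq p' hp'
        have hmap : (q.map (Embedding.induce (G := G) (K : Set W)).toHom).IsPath :=
          Walk.IsPath.map (Embedding.induce (G := G) (K : Set W)).injective hq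
        have h1 : p' = q.map (Embedding.induce (G := G) (K : Set W)).toHom := huniq _ _ hp' hmap
        have hs : p'.support = q.support.map (Embedding.induce (G := G) (K : Set W)).toHom := by
          rw [h1]; exact Walk.support_map _ _
        have h2 : p'.snd ∈ p'.support := p'.getVert_mem_support 1
        rw [hs, List.mem_map] at h2
        obtain ⟨x, _, hx⟩ := h2
        rw [← hx]
        exact x.2
      exact key ⟨v, hv⟩ ⟨r, hr⟩ q' hq' (p v) (hp v)
  · intro b w hw i hi
    have hdep' : ∀ j, j ≤ w.length → (p (w.getVert j)).length = j := by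
      intro j hj
      have h1 : p (w.getVert j) = (w.take j).reverse := huniq _ _ (hp _) (hw.take j).reverse
      rw [h1, Walk.length_reverse, Walk.take_length]
      exact min_eq_left hj
    have hne : w.getVert (i + 1) ≠ r := by
      intro h
      have h2 := hdep' (i + 1) (by omega)
      rw [h, hpr] at h2
      simp at h2
    refine ⟨hne, ?_⟩
    have hadj := w.adj_getVert_succ hi
    rcases hadj2 _ _ hadj with ⟨h, h'⟩ | ⟨_, h⟩
    · exfalso
      have h3 := hdep _ h
      rw [h', hdep' _ (by omega), hdep' _ (by omega)] at h3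
      omega
    · exact h

end Pool.Agent.Helper40.SU
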